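import Pool.Agent.EinV.FrAsm
import Pool.Agent.EStab.Final

/-!
# Einstein metrics on principal bundles over compact homogeneous spaces

Let `G` be a compact semisimple group, `G_N = SO(N)`, `SU(N)` or `Sp(N)`, and `H` a closed subgroup of
`G × G_k` such that `H ∩ G` is finite.  If the bi-invariant metric of `G` is rigid for the projection of
`H` to `G` (for instance, if `G` is a product of groups `SO(n_i)`, `3 ≤ n_i ≠ 6`), then for all large `n`
the homogeneous space `(G × G_(n+k))/H` has an invariant Einstein metric of positive scalar curvature.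
If `H` is a closed subgroup of `G` and `ρ : H → SO(k)` has a finite kernel, then this is the bundle of the
oriented orthonormal frames of `E ⊕ ℝ^n` over `G/H`, `E` the vector bundle given by `ρ`.
-/

namespace Pool.Agent.Results.MP_ebfab8_gt.PrincipalBundles

open Pool.Agent.EStab Pool.Agent.EinV Quaternion

theorem result :
    (BundlesEinstein ℝ ∧ BundlesEinstein ℂ ∧ BundlesEinstein ℍ[ℝ]) ∧
    ∀ (r : ℕ) (N : Fin r → ℕ), (∀ i, 3 ≤ N i ∧ N i ≠ 6) →
      CompactSemisimple (∀ i, LieAlgebra.Orthogonal.so (Fin (N i)) ℝ) ∧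
      ∀ (h : LieSubalgebra ℝ (∀ i, LieAlgebra.Orthogonal.so (Fin (N i)) ℝ))
        (G : Set ((∀ i, LieAlgebra.Orthogonal.so (Fin (N i)) ℝ) ≃ₗ⁅ℝ⁆
          ∀ i, LieAlgebra.Orthogonal.so (Fin (N i)) ℝ)), RigidFor h G :=
  ⟨⟨bundles_real, bundles_complex, bundles_quat⟩, fun _ _ hN =>
    ⟨(so_prod hN).1, fun h G => rigidFor_of_rigid (so_prod hN).2 h G⟩⟩

end Pool.Agent.Results.MP_ebfab8_gt.PrincipalBundles
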