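import Pool.Agent.EinV.StQ

/-!
# Einstein metrics on `G/H` for all small closed subgroups `H` of products of classical groups

For every `θ > 0` there is `ε > 0` with the following property.  Let `G` be a product of groups
`G_i = SO(N_i)`, `SU(N_i)` or `Sp(N_i)`, `N_i ≥ 3`, and let `H` be a closed subgroup of `G` whose
projection `H_i` to each factor has dimension at most `ε N_i²` and either has no irreducible subspace
`W` with `(1 - θ) N_i < dim W < N_i`, or preserves a structure (a complex structure on `ℝ^N`, a real or
quaternionic structure on `ℂ^N`, a complex structure on `ℍ^N`).  Then `G/H` has a `G`-invariant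
Einstein metric of positive scalar curvature.
-/

namespace Pool.Agent.Results.MP_ebfab8_gt.SmallSubgroups

open Pool.Agent.EinV

theorem result : SmallSubgroupsProducts := small_products

end Pool.Agent.Results.MP_ebfab8_gt.SmallSubgroups
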