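import Pool.Agent.EinS.ClFinal

/-!
# Einstein metrics on `G/(H × L)` for every closed subgroup `H` of `K`, `(G, K × L)` a symmetric pair

Let `G` be a compact semisimple Lie group and `(G, K × L)` a symmetric pair such that the Casimir
operator of `K` (with respect to minus the Killing form of `G`) is at most `1/20` on the Lie algebra
of `K` and at most `1/40` on the tangent space of `G/(K × L)`.  Then for every closed subgroup `H` of
`K` the homogeneous space `G/(H × L)` has a `G`-invariant Einstein metric of positive scalar
curvature.

The pairs of the real, complex and quaternionic Grassmannians of `k`-dimensional subspaces satisfy the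
hypotheses in dimension `n + k` for `n ≥ 19 (k + 1)`, and so do the products of such pairs.  So for all
`N_i ≥ 20 (k_i + 1)` and every closed subgroup `H` of the product of the groups `O(k_i)`, `U(k_i)` or
`Sp(k_i)` the quotient by `H` of the product of the Stiefel manifolds `V_{k_i}(F_i^{N_i})`,
`F_i = ℝ, ℂ, ℍ`, is an Einstein manifold.
-/

namespace Pool.Agent.Results.MP_ebfab8_gt.SymmetricPairQuotients

open Pool.Agent.EStab Pool.Agent.EinS

theorem result :
    (∀ (g : Type) [LieRing g] [LieAlgebra ℝ g] [Module.Finite ℝ g] (k l : LieSubalgebra ℝ g),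
      CompactSemisimple g → SymPair k l → CasimirLE k l (1 / 20) (1 / 40) →
        AllQuotientsEinstein k l) ∧
    ∀ (r : ℕ) (F : Fin r → Fld) (n k : Fin r → ℕ), (∀ i, 19 * (k i + 1) ≤ n i) →
      AllQuotientsEinstein (lowersF F n k) (uppersF F n k) :=
  ⟨fun _ _ _ _ _ _ hg hs hc => einstein_all hg hs hc,
    fun _ _ _ _ hn => einstein_stiefel_prodF hn⟩

end Pool.Agent.Results.MP_ebfab8_gt.SymmetricPairQuotients
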