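import Pool.Agent.EinW.Fin

/-!
# Einstein metrics on `G/H × G^(n-1)` with `n ≥ n₀` independent of `G` and `H`

Let `E_1, ..., E_r` be compact semisimple Lie algebras.  There are a number `n₀` and `ε > 0` with the
following property.  Let `G = ∏ G_i^(q_i)`, where the Lie algebra of each `G_i` is `so(N_i)`, `su(N_i)` or
`sp(N_i)`, `N_i ≥ 3`, or one of the `E_j`, and let `H` be a closed subgroup of the product of the diagonals
`ΔG_i` of `G_i^(q_i)`.  If for every `i` either `q_i ≥ n₀`, or `q_i ≥ 2`, `G_i` is classical and the
projection of `H` to `G_i` has dimension at most `ε N_i²`, then `G/H` has a `G`-invariant Einstein metric of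
positive scalar curvature.

If the `E_j` are the exceptional simple Lie algebras, then the `G_i` may be all compact simple groups, and
`n₀` is an absolute constant: `G^n/ΔH`, which is diffeomorphic to `G/H × G^(n-1)`, has an invariant Einstein
metric for all compact semisimple groups `G`, all closed subgroups `H` and all `n ≥ n₀`.

The metrics are close to a left-invariant Einstein metric on `G` which is obtained from the bi-invariant
metric by scaling the diagonals of blocks of factors.  The linearised Einstein equation at this metric is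
determined by the operator `Φ f x = ∑ i, f [x, e_i]` on the quadratic forms of the Lie algebra of `G_i`; its
eigenvalues for the classical groups are `1`, `1/2 - s/l`, `2/l` and `-m/l`, `m = 1, 2, 4`, `s = 2 - m`,
`l = m N - 2 s`.
-/

namespace Pool.Agent.Results.MP_ebfab8_gt.UniformStableQuotients

open Pool.Agent.EStab Pool.Agent.EinG Pool.Agent.EinW

theorem result :
    ∀ (r : ℕ) (E : Fin r → Type) [∀ j, LieRing (E j)] [∀ j, LieAlgebra ℝ (E j)]
      [∀ j, Module.Finite ℝ (E j)], (∀ j, CompactSemisimple (E j)) →
      ∃ (n₀ : ℕ) (ε : ℝ), 0 < ε ∧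
        ∀ (n : ℕ) (L : Fin n → Type) [∀ i, LieRing (L i)] [∀ i, LieAlgebra ℝ (L i)]
          (q : Fin n → ℕ) (h : LieSubalgebra ℝ (∀ i, Fin (q i) → L i)),
          (∀ x ∈ h, ∀ i a b, x i a = x i b) →
          (∀ i, (n₀ ≤ q i ∧ (IsClassical (L i) ∨ ∃ j, Nonempty (L i ≃ₗ⁅ℝ⁆ E j))) ∨
            (2 ≤ q i ∧ SmallPr h i ε)) →
            HasEinsteinMetric (∀ i, Fin (q i) → L i) h.toSubmodule (blockAuts h) :=
  fun _ E _ _ _ hE => stable_uniform E hE

end Pool.Agent.Results.MP_ebfab8_gt.UniformStableQuotients
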